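import Pool.Agent.H11.HZ.Split

namespace Pool.Agent.H11.HZ.AWAY

open Pool.Agent.H12.HS Pool.Agent.H11.HZ.Split

universe u

/-- the local case -/
theorem away_local (hmt : T_MT.{u}) {k Ω : Type u} [Field k] [Field Ω] [IsAlgClosed k]
    [IsAlgClosed Ω] [CharZero k] (κ : k →+* Ω) (W : Type u) [CommRing W] [Algebra Ω W]
    [Module.Finite Ω W] [IsLocalRing W]
    (p : Fin 3 → W) (hadj : Algebra.adjoin Ω (Set.range p) = ⊤)
    (hsq : p 2 ^ 2 = p 0 ^ 4 + p 1 ^ 4) (hspan : Ideal.span (Set.range p) = ⊤) : SmAt κ W p := by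
  have hart : IsArtinianRing W := isArtinian_of_tower Ω (inferInstance : IsArtinian Ω W)
  have hfin : Module.Finite Ω (IsLocalRing.ResidueField W) :=
    Module.Finite.of_surjective (Algebra.linearMap W (IsLocalRing.ResidueField W) |>.restrictScalars Ω)
      IsLocalRing.residue_surjective
  have hbij := IsAlgClosed.algebraMap_bijective_of_isIntegral (k := Ω)
    (K := IsLocalRing.ResidueField W)
  have hq : ∀ i, ∃ c : Ω, algebraMap Ω (IsLocalRing.ResidueField W) c = IsLocalRing.residue W (p i) :=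
    fun i => hbij.2 _
  choose q hq using hq
  have hmem : ∀ i, p i - algebraMap Ω W (q i) ∈ IsLocalRing.maximalIdeal W := by
    intro i
    rw [← IsLocalRing.residue_eq_zero_iff, map_sub, ← hq i, sub_eq_zero]
    rfl
  have hnil : ∀ w ∈ IsLocalRing.maximalIdeal W, IsNilpotent w := by
    intro w hw
    have h1 := IsArtinianRing.isNilpotent_jacobson_bot (R := W)
    rw [IsLocalRing.jacobson_eq_maximalIdeal ⊥ bot_ne_top] at h1
    obtain ⟨n, hn⟩ := h1
    refine ⟨n, ?_⟩
    have := Ideal.pow_mem_pow hw n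
    rw [hn] at this
    exact this
  refine hmt k Ω κ W p hadj hsq q ?_ fun i => hnil _ (hmem i)
  by_contra hcon
  push Not at hcon
  obtain ⟨h0, h1⟩ := hcon
  have hp0 : p 0 ∈ IsLocalRing.maximalIdeal W := by
    have := hmem 0
    rwa [h0, map_zero, sub_zero] at this
  have hp1 : p 1 ∈ IsLocalRing.maximalIdeal W := by
    have := hmem 1
    rwa [h1, map_zero, sub_zero] at this
  have hp2 : p 2 ∈ IsLocalRing.maximalIdeal W := by
    have h2 : p 2 ^ 2 ∈ IsLocalRing.maximalIdeal W := by
      rw [hsq]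
      exact Ideal.add_mem _ (Ideal.pow_mem_of_mem _ hp0 4 (by norm_num))
        (Ideal.pow_mem_of_mem _ hp1 4 (by norm_num))
    exact Ideal.IsPrime.mem_of_pow_mem (IsLocalRing.maximalIdeal.isMaximal W).isPrime 2 h2
  have hle : Ideal.span (Set.range p) ≤ IsLocalRing.maximalIdeal W := by
    rw [Ideal.span_le]
    rintro _ ⟨i, rfl⟩
    fin_cases i
    · exact hp0
    · exact hp1
    · exact hp2
  rw [hspan] at hle
  exact (IsLocalRing.maximalIdeal.isMaximal W).ne_top (top_le_iff.1 hle)

theorem adjoin_mk {Ω W : Type u} [Field Ω] [CommRing W] [Algebra Ω W] (I : Ideal W)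
    (p : Fin 3 → W) (h : Algebra.adjoin Ω (Set.range p) = ⊤) :
    Algebra.adjoin Ω (Set.range fun i => Ideal.Quotient.mk I (p i)) = ⊤ := by
  have h1 : (Set.range fun i => Ideal.Quotient.mk I (p i)) =
      (Ideal.Quotient.mkₐ Ω I) '' (Set.range p) := by
    rw [← Set.range_comp]
    rfl
  rw [h1, ← AlgHom.map_adjoin, h, Algebra.map_top, AlgHom.range_eq_top]
  exact Ideal.Quotient.mk_surjective

theorem span_mk {W : Type u} [CommRing W] (I : Ideal W)
    (p : Fin 3 → W) (h : Ideal.span (Set.range p) = ⊤) :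
    Ideal.span (Set.range fun i => Ideal.Quotient.mk I (p i)) = ⊤ := by
  have h1 : (Set.range fun i => Ideal.Quotient.mk I (p i)) =
      (Ideal.Quotient.mk I) '' (Set.range p) := by
    rw [← Set.range_comp]
    rfl
  rw [h1, ← Ideal.map_span, h, Ideal.map_top]

theorem away_aux (hmt : T_MT.{u}) (hsum : T_SUM.{u}) {k Ω : Type u} [Field k] [Field Ω]
    [IsAlgClosed k] [IsAlgClosed Ω] [CharZero k] (κ : k →+* Ω) (N : ℕ) :
    ∀ (W : Type u) [CommRing W] [Algebra Ω W] [Module.Finite Ω W]
    (p : Fin 3 → W), Module.finrank Ω W ≤ N → Algebra.adjoin Ω (Set.range p) = ⊤ →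
    p 2 ^ 2 = p 0 ^ 4 + p 1 ^ 4 → Ideal.span (Set.range p) = ⊤ → SmAt κ W p := by
  induction N with
  | zero =>
    intro W _ _ _ p hN _ _ _
    have : Subsingleton W := by
      rw [← Module.finrank_zero_iff (R := Ω)]
      omega
    exact SmAt.of_subsingleton κ W p
  | succ N ih =>
    intro W _ _ _ p hN hadj hsq hspan
    rcases subsingleton_or_nontrivial W with hW | hW
    · exact SmAt.of_subsingleton κ W p
    by_cases hloc : IsLocalRing W
    · exact away_local hmt κ W p hadj hsq hspan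
    obtain ⟨M, hM⟩ := Ideal.exists_maximal W
    obtain ⟨n, e, he, hMn, heM⟩ := exists_idem (Ω := Ω) M
    have he1 : e ≠ 1 := by
      rintro rfl
      exact hM.ne_top ((Ideal.eq_top_iff_one M).2 heM)
    have he0 : e ≠ 0 := by
      rintro rfl
      apply hloc
      refine IsLocalRing.of_unique_max_ideal ⟨M, hM, fun M' hM' => ?_⟩
      have h1 : M ≤ M' := by
        intro w hw
        have h2 : w ^ n ∈ M ^ n := Ideal.pow_mem_pow hw n
        rw [hMn, Ideal.span_singleton_zero, Ideal.mem_bot] at h2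
        exact hM'.isPrime.mem_of_pow_mem n (by rw [h2]; exact M'.zero_mem)
      exact (hM.eq_of_le hM'.ne_top h1).symm
    have hn1 : Nontrivial (W ⧸ Ideal.span {e}) := by
      rw [Ideal.Quotient.nontrivial_iff, Ne, Ideal.span_singleton_eq_top]
      intro hu
      apply he1
      have := hu.mul_left_cancel (by rw [he, mul_one] : e * e = e * 1)
      exact this
    have hn2 : Nontrivial (W ⧸ Ideal.span {1 - e}) := by
      rw [Ideal.Quotient.nontrivial_iff, Ne, Ideal.span_singleton_eq_top]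
      intro hu
      apply he0
      have h1 : (1 - e) * e = (1 - e) * 0 := by rw [sub_mul, one_mul, he, sub_self, mul_zero]
      exact hu.mul_left_cancel h1
    let E : W ≃ₐ[Ω] (W ⧸ Ideal.span {e}) × (W ⧸ Ideal.span {1 - e}) :=
      AlgEquiv.ofBijective (spl e) (spl_bij e he)
    have hdim : Module.finrank Ω W = Module.finrank Ω (W ⧸ Ideal.span {e}) +
        Module.finrank Ω (W ⧸ Ideal.span {1 - e}) := by
      rw [← Module.finrank_prod]
      exact E.toLinearEquiv.finrank_eq
    have hp1 : 0 < Module.finrank Ω (W ⧸ Ideal.span {e}) := Module.finrank_pos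
    have hp2 : 0 < Module.finrank Ω (W ⧸ Ideal.span {1 - e}) := Module.finrank_pos
    have hs : ∀ I : Ideal W, (Ideal.Quotient.mk I (p 2)) ^ 2 =
        (Ideal.Quotient.mk I (p 0)) ^ 4 + (Ideal.Quotient.mk I (p 1)) ^ 4 := by
      intro I
      rw [← map_pow, ← map_pow, ← map_pow, ← map_add, hsq]
    have h1 := ih (W ⧸ Ideal.span {e}) (fun i => Ideal.Quotient.mk _ (p i)) (by omega)
      (adjoin_mk _ p hadj) (hs _) (span_mk _ p hspan)
    have h2 := ih (W ⧸ Ideal.span {1 - e}) (fun i => Ideal.Quotient.mk _ (p i)) (by omega)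
      (adjoin_mk _ p hadj) (hs _) (span_mk _ p hspan)
    have hadj' : Algebra.adjoin Ω (Set.range fun i => (Ideal.Quotient.mk (Ideal.span {e}) (p i),
        Ideal.Quotient.mk (Ideal.span {1 - e}) (p i))) = ⊤ := by
      have h3 : (Set.range fun i => (Ideal.Quotient.mk (Ideal.span {e}) (p i),
          Ideal.Quotient.mk (Ideal.span {1 - e}) (p i))) = (spl (Ω := Ω) e) '' (Set.range p) := by
        rw [← Set.range_comp]
        rfl
      rw [h3, ← AlgHom.map_adjoin, hadj, Algebra.map_top, AlgHom.range_eq_top]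
      exact (spl_bij e he).2
    have h3 := hsum k Ω κ _ _ _ _ h1 h2 hadj'
    refine SmAt.of_iso E.symm (fun i => ?_) h3
    rw [AlgEquiv.symm_apply_eq]
    rfl

theorem away (hmt : T_MT.{u}) (hsum : T_SUM.{u}) : T_AWAY.{u} := by
  intro k Ω _ _ _ _ _ κ W _ _ _ p h1 h2 h3
  exact away_aux hmt hsum κ _ W p le_rfl h1 h2 h3

end Pool.Agent.H11.HZ.AWAY
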