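import Pool.Agent.H12.HS.Targets
import Pool.Agent.H12.HS.Basic

namespace Pool.Agent.H11.HZ.BB

open Pool.Agent.H12.HS
open Matrix

universe u

section
variable {Ω : Type u} [Field Ω]

theorem quart_eq : quart ![1, 0, 0, 0, 1] = g4 Ω := by
  rw [quart, Fin.sum_univ_five, g4]
  simp [cst_one, cst_zero]

theorem exists_prim {n : Type} [Fintype n] (v : n → PowerSeries Ω) (hv : v ≠ 0) :
    ∃ (k : ℕ) (u : n → PowerSeries Ω), (v = fun i => PowerSeries.X ^ k * u i) ∧
      ∃ i, PowerSeries.constantCoeff (u i) ≠ 0 := by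
  classical
  have hex : ∃ k, ∃ i, PowerSeries.coeff k (v i) ≠ 0 := by
    by_contra hcon
    push Not at hcon
    apply hv
    funext i
    ext k
    exact hcon k i
  have hmin : ∀ j, j < Nat.find hex → ∀ i, PowerSeries.coeff j (v i) = 0 := by
    intro j hj i
    by_contra h
    exact Nat.find_min hex hj ⟨i, h⟩
  obtain ⟨i0, hi0⟩ := Nat.find_spec hex
  refine ⟨Nat.find hex, fun i => PowerSeries.mk fun j => PowerSeries.coeff (j + Nat.find hex) (v i),
    ?_, i0, ?_⟩
  · funext i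
    ext j
    rw [PowerSeries.coeff_X_pow_mul']
    split_ifs with h
    · rw [PowerSeries.coeff_mk, Nat.sub_add_cancel h]
    · exact hmin j (by omega) i
  · rw [← PowerSeries.coeff_zero_eq_constantCoeff_apply, PowerSeries.coeff_mk, zero_add]
    exact hi0

theorem exists_eigen [CharZero Ω] {n : Type} [Fintype n] [DecidableEq n]
    (N : Matrix n n (PowerSeries Ω)) (hN : N * N = (PowerSeries.X ^ 4 : PowerSeries Ω) •
      (1 : Matrix n n (PowerSeries Ω))) (htr : N.trace = 0) (hcard : 0 < Fintype.card n) :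
    ∃ u : n → PowerSeries Ω, N *ᵥ u = (PowerSeries.C 1 * PowerSeries.X ^ 2 : PowerSeries Ω) • u ∧
      ∃ i, PowerSeries.constantCoeff (u i) ≠ 0 := by
  obtain ⟨E, hE⟩ : ∃ E : Matrix n n (PowerSeries Ω), E = (PowerSeries.X ^ 2 : PowerSeries Ω) •
    (1 : Matrix n n (PowerSeries Ω)) + N := ⟨_, rfl⟩
  have hNE : N * E = (PowerSeries.X ^ 2 : PowerSeries Ω) • E := by
    rw [hE, Matrix.mul_add, hN, Matrix.mul_smul, Matrix.mul_one, smul_add, smul_smul, ← pow_add,
      add_comm]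
  have htrE : E.trace ≠ 0 := by
    rw [hE, Matrix.trace_add, htr, add_zero, Matrix.trace_smul, Matrix.trace_one, smul_eq_mul]
    apply mul_ne_zero
    · exact pow_ne_zero _ PowerSeries.X_ne_zero
    · intro h
      have h1 := congrArg (PowerSeries.constantCoeff (R := Ω)) h
      rw [map_natCast, map_zero, Nat.cast_eq_zero] at h1
      omega
  obtain ⟨j, hj⟩ : ∃ j, (fun i => E i j) ≠ 0 := by
    by_contra hcon
    push Not at hcon
    apply htrE
    rw [Matrix.trace]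
    refine Finset.sum_eq_zero fun i _ => ?_
    exact congrFun (hcon i) i
  obtain ⟨k, u, hu, hprim⟩ := exists_prim _ hj
  refine ⟨u, ?_, hprim⟩
  have h1 : N *ᵥ (fun i => E i j) = (PowerSeries.X ^ 2 : PowerSeries Ω) • (fun i => E i j) := by
    funext i
    exact congrFun (congrFun hNE i) j
  have h2 : (fun i => E i j) = (PowerSeries.X ^ k : PowerSeries Ω) • u := hu
  rw [h2, Matrix.mulVec_smul, smul_comm] at h1
  have h3 := smul_right_injective (n → PowerSeries Ω)
    (pow_ne_zero k PowerSeries.X_ne_zero : (PowerSeries.X ^ k : PowerSeries Ω) ≠ 0) h1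
  rw [h3, map_one, one_mul]

theorem cf_mulVec {n : Type} [Fintype n] (T : Matrix n n (P2 Ω)) (v : n → P2 Ω) (i j : ℕ) (a : n) :
    cf i j ((T *ᵥ v) a) = ∑ b, cf i j (T a b * v b) := by
  rw [Matrix.mulVec, dotProduct, cf_sum]

theorem cf_vecMul {n : Type} [Fintype n] (T : Matrix n n (P2 Ω)) (v : n → P2 Ω) (i j : ℕ) (a : n) :
    cf i j ((v ᵥ* T) a) = ∑ b, cf i j (v b * T b a) := by
  rw [Matrix.vecMul, dotProduct, cf_sum]

/-- orders of products when the first factor starts in order two -/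
theorem cf01 (p q : P2 Ω) (h0 : cf 0 0 p = 0) (h1 : cf 0 1 p = 0) :
    cf 0 1 (p * q) = 0 := by
  rw [cf_mul]
  simp [Finset.Nat.antidiagonal_succ, h0, h1]

theorem cf11 (p q : P2 Ω) (h0 : cf 0 0 p = 0) (hx : cf 1 0 p = 0) (h1 : cf 0 1 p = 0) :
    cf 1 1 (p * q) = cf 1 1 p * cf 0 0 q := by
  rw [cf_mul]
  simp [Finset.Nat.antidiagonal_succ, h0, h1, hx]

theorem cf02 (p q : P2 Ω) (h0 : cf 0 0 p = 0) (h1 : cf 0 1 p = 0) :
    cf 0 2 (p * q) = cf 0 2 p * cf 0 0 q := by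
  rw [cf_mul]
  simp [Finset.Nat.antidiagonal_succ, h0, h1]

theorem cf20 (p q : P2 Ω) (h0 : cf 0 0 p = 0) (hx : cf 1 0 p = 0) :
    cf 2 0 (p * q) = cf 2 0 p * cf 0 0 q := by
  rw [cf_mul]
  simp [Finset.Nat.antidiagonal_succ, h0, hx]

theorem cf31 (p q : P2 Ω) (h0 : cf 0 0 p = 0) (hx : cf 1 0 p = 0) (h1 : cf 0 1 p = 0)
    (k0 : cf 0 0 q = 0) (kx : cf 1 0 q = 0) (k1 : cf 0 1 q = 0) :
    cf 3 1 (p * q) = cf 2 0 p * cf 1 1 q + cf 1 1 p * cf 2 0 q := by
  rw [cf_mul]
  simp [Finset.Nat.antidiagonal_succ, h0, hx, h1, k0, kx, k1]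

theorem cf22 (p q : P2 Ω) (h0 : cf 0 0 p = 0) (hx : cf 1 0 p = 0) (h1 : cf 0 1 p = 0)
    (k0 : cf 0 0 q = 0) (kx : cf 1 0 q = 0) (k1 : cf 0 1 q = 0) :
    cf 2 2 (p * q) = cf 2 0 p * cf 0 2 q + cf 1 1 p * cf 1 1 q + cf 0 2 p * cf 2 0 q := by
  rw [cf_mul]
  simp [Finset.Nat.antidiagonal_succ, h0, hx, h1, k0, kx, k1]
  ring

theorem cf04 (p q : P2 Ω) (h0 : cf 0 0 p = 0) (h1 : cf 0 1 p = 0)
    (k0 : cf 0 0 q = 0) (k1 : cf 0 1 q = 0) :
    cf 0 4 (p * q) = cf 0 2 p * cf 0 2 q := by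
  rw [cf_mul]
  simp [Finset.Nat.antidiagonal_succ, h0, h1, k0, k1]

end

theorem final {Ω : Type u} [Field Ω] [CharZero Ω] {n : Type} [Fintype n] [DecidableEq n]
    (T20 T11 T02 : Matrix n n Ω) (u : n → Ω) (hu : u ≠ 0) (q1 q2 : Ω)
    (h20 : T20 *ᵥ u = u) (h11 : T11 *ᵥ u = q1 • u) (h02 : T02 *ᵥ u = q2 • u)
    (k31 : T20 * T11 + T11 * T20 = 0) (k22 : T20 * T02 + T11 * T11 + T02 * T20 = 0)
    (k04 : T02 * T02 = 1) : False := by
  have a1 : (2 * q1) • u = 0 := by
    have := congrArg (fun A => A *ᵥ u) k31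
    simp only [Matrix.add_mulVec, ← Matrix.mulVec_mulVec, h20, h11, Matrix.mulVec_smul,
      Matrix.zero_mulVec] at this
    rw [two_mul, add_smul]
    exact this
  have b1 : q1 = 0 := by
    rcases smul_eq_zero.1 a1 with h | h
    · simpa using h
    · exact absurd h hu
  have a2 : (2 * q2) • u = 0 := by
    have := congrArg (fun A => A *ᵥ u) k22
    simp only [Matrix.add_mulVec, ← Matrix.mulVec_mulVec, h20, h11, h02, Matrix.mulVec_smul,
      Matrix.zero_mulVec, b1, zero_smul, Matrix.mulVec_zero, add_zero] at this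
    rw [two_mul, add_smul]
    exact this
  have b2 : q2 = 0 := by
    rcases smul_eq_zero.1 a2 with h | h
    · simpa using h
    · exact absurd h hu
  have := congrArg (fun A => A *ᵥ u) k04
  simp only [← Matrix.mulVec_mulVec, h02, Matrix.mulVec_zero, Matrix.one_mulVec, b2,
    zero_smul] at this
  exact hu this.symm

theorem bb (hnbu : T_NBU.{u}) (htr : T_TR0.{u}) (hdom : T_DOM.{u}) : T_BB.{u} := by
  intro Ω _ _ _ n _ _ T hT h0 hx hy hcard
  have e00 : ∀ a b, cf 0 0 (T a b) = 0 := fun a b => by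
    rw [← ev0_eq_cf]; exact congrFun (congrFun h0 a) b
  have e10 : ∀ a b, cf 1 0 (T a b) = 0 := fun a b => congrFun (congrFun hx a) b
  have e01 : ∀ a b, cf 0 1 (T a b) = 0 := fun a b => congrFun (congrFun hy a) b
  have htrT : T.trace = 0 := htr (P2 Ω) (g4 Ω) n T (hdom Ω).1 hT
  have hg0 : PowerSeries.constantCoeff (g4 Ω) = PowerSeries.X ^ 4 := by
    simp [g4, px, py]
  have hN : T.map (PowerSeries.constantCoeff (R := PowerSeries Ω)) *
      T.map (PowerSeries.constantCoeff (R := PowerSeries Ω)) =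
        (PowerSeries.X ^ 4 : PowerSeries Ω) • (1 : Matrix n n (PowerSeries Ω)) := by
    rw [← Matrix.map_mul, hT]
    ext1 a b
    rw [Matrix.map_apply, Matrix.smul_apply, Matrix.smul_apply, smul_eq_mul, map_mul, hg0,
      smul_eq_mul]
    congr 1
    by_cases hab : a = b
    · subst hab
      rw [Matrix.one_apply_eq, Matrix.one_apply_eq, map_one]
    · rw [Matrix.one_apply_ne hab, Matrix.one_apply_ne hab, map_zero]
  have htrN : (T.map (PowerSeries.constantCoeff (R := PowerSeries Ω))).trace = 0 := by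
    have := congrArg (PowerSeries.constantCoeff (R := PowerSeries Ω)) htrT
    rw [map_zero, Matrix.trace, map_sum] at this
    exact this
  obtain ⟨u, hu, i0, hu0⟩ := exists_eigen _ hN htrN (by omega)
  obtain ⟨φ, D, ⟨j0, hφ0⟩, hφN, hl, hs, ha, hDu, hDφ⟩ := hnbu Ω n ![1, 0, 0, 0, 1] T
    (by rw [quart_eq]; exact hT) htrT hcard 1 (by simp) one_ne_zero u hu ⟨i0, hu0⟩
  rw [← quart_eq]
  -- coefficients of the equations
  have hUe : ∀ i j a, cf i j (∑ b, T a b * D.u b) = cf i j (px Ω ^ 2 * D.u a) +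
      cf i j (py Ω ^ 1 * D.u' a) := by
    intro i j a
    have h1 := congrArg (cf i j) (congrFun D.hu a)
    rw [Pi.add_apply, Pi.smul_apply, Pi.smul_apply, smul_eq_mul, smul_eq_mul, ha, hl, cst_one,
      one_mul, cf_add] at h1
    rw [pow_one]
    exact h1
  have hPe : ∀ i j a, cf i j (∑ b, D.φ b * T b a) = cf i j (px Ω ^ 2 * D.φ a) +
      cf i j (py Ω ^ 1 * D.φ' a) := by
    intro i j a
    have h1 := congrArg (cf i j) (congrFun D.hφ a)
    rw [Pi.add_apply, Pi.smul_apply, Pi.smul_apply, smul_eq_mul, smul_eq_mul, ha, hl, cst_one,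
      one_mul, cf_add] at h1
    rw [pow_one]
    exact h1
  have hu'0 : ∀ a, cf 0 0 (D.u' a) = 0 := by
    intro a
    have h1 := hUe 0 1 a
    rw [cf_px_pow_mul, cf_py_pow_mul, cf_sum, Finset.sum_eq_zero fun b _ =>
      cf01 _ _ (e00 a b) (e01 a b)] at h1
    simpa using h1.symm
  have hφ'0 : ∀ a, cf 0 0 (D.φ' a) = 0 := by
    intro a
    have h1 := hPe 0 1 a
    rw [cf_px_pow_mul, cf_py_pow_mul, cf_sum, Finset.sum_eq_zero fun b _ => by
      rw [mul_comm]; exact cf01 _ _ (e00 b a) (e01 b a)] at h1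
    simpa using h1.symm
  refine ⟨D, by rw [hs, ev0_px], ?_, ?_⟩
  · ext a b
    rw [Matrix.map_apply, HD.D1, Matrix.sub_apply, Matrix.vecMulVec_apply, Matrix.vecMulVec_apply,
      map_sub, map_mul, map_mul, ev0_eq_cf (D.u' a), ev0_eq_cf (D.φ' b), hu'0, hφ'0]
    simp
  · by_contra hcon
    push Not at hcon
    obtain ⟨-, hlx, hly⟩ := hcon
    have k0 : cf 0 0 (D.φ j0) ≠ 0 := by
      rw [hDφ]
      change PowerSeries.coeff 0 (PowerSeries.coeff 0 (PowerSeries.C (φ j0))) ≠ 0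
      rw [PowerSeries.coeff_zero_C]
      simpa using hφ0
    have ku : (fun a => cf 0 0 (D.u a)) ≠ 0 := by
      intro h
      have h1 := congrFun h i0
      rw [hDu] at h1
      change PowerSeries.coeff 0 (PowerSeries.coeff 0 (PowerSeries.C (u i0))) = 0 at h1
      rw [PowerSeries.coeff_zero_C] at h1
      apply hu0
      simpa using h1
    have hx1 : ∀ a, cf 1 0 (D.u' a) * cf 0 0 (D.φ j0) = cf 0 0 (D.u a) * cf 1 0 (D.φ' j0) := by
      intro a
      have h1 : lx (D.D1 a j0) = 0 := congrFun (congrFun hlx a) j0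
      rw [HD.D1, Matrix.sub_apply, Matrix.vecMulVec_apply, Matrix.vecMulVec_apply, lx_sub, lx_mul,
        lx_mul, ev0_eq_cf, ev0_eq_cf, ev0_eq_cf, ev0_eq_cf, hu'0, hφ'0] at h1
      simp only [lx, zero_mul, mul_zero, add_zero, zero_add] at h1
      exact sub_eq_zero.1 h1
    have hy1 : ∀ a, cf 0 1 (D.u' a) * cf 0 0 (D.φ j0) = cf 0 0 (D.u a) * cf 0 1 (D.φ' j0) := by
      intro a
      have h1 : ly (D.D1 a j0) = 0 := congrFun (congrFun hly a) j0
      rw [HD.D1, Matrix.sub_apply, Matrix.vecMulVec_apply, Matrix.vecMulVec_apply, ly_sub, ly_mul,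
        ly_mul, ev0_eq_cf, ev0_eq_cf, ev0_eq_cf, ev0_eq_cf, hu'0, hφ'0] at h1
      simp only [ly, zero_mul, mul_zero, add_zero, zero_add] at h1
      exact sub_eq_zero.1 h1
    refine final (T.map (cf 2 0)) (T.map (cf 1 1)) (T.map (cf 0 2)) (fun a => cf 0 0 (D.u a)) ku
      (cf 1 0 (D.φ' j0) / cf 0 0 (D.φ j0)) (cf 0 1 (D.φ' j0) / cf 0 0 (D.φ j0)) ?_ ?_ ?_ ?_ ?_ ?_
    · funext a
      have h1 := hUe 2 0 a
      rw [cf_px_pow_mul, cf_py_pow_mul, cf_sum, Finset.sum_congr rfl fun b _ =>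
        cf20 _ _ (e00 a b) (e10 a b)] at h1
      change ∑ b, cf 2 0 (T a b) * cf 0 0 (D.u b) = cf 0 0 (D.u a)
      simpa using h1
    · funext a
      have h1 := hUe 1 1 a
      rw [cf_px_pow_mul, cf_py_pow_mul, cf_sum, Finset.sum_congr rfl fun b _ =>
        cf11 _ _ (e00 a b) (e10 a b) (e01 a b)] at h1
      have h2 : ∑ b, cf 1 1 (T a b) * cf 0 0 (D.u b) = cf 1 0 (D.u' a) := by simpa using h1
      have h3 := hx1 a
      change ∑ b, cf 1 1 (T a b) * cf 0 0 (D.u b) =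
        cf 1 0 (D.φ' j0) / cf 0 0 (D.φ j0) * cf 0 0 (D.u a)
      rw [h2]
      field_simp
      rw [h3]
      ring
    · funext a
      have h1 := hUe 0 2 a
      rw [cf_px_pow_mul, cf_py_pow_mul, cf_sum, Finset.sum_congr rfl fun b _ =>
        cf02 _ _ (e00 a b) (e01 a b)] at h1
      have h2 : ∑ b, cf 0 2 (T a b) * cf 0 0 (D.u b) = cf 0 1 (D.u' a) := by simpa using h1
      have h3 := hy1 a
      change ∑ b, cf 0 2 (T a b) * cf 0 0 (D.u b) =
        cf 0 1 (D.φ' j0) / cf 0 0 (D.φ j0) * cf 0 0 (D.u a)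
      rw [h2]
      field_simp
      rw [h3]
      ring
    · ext a b
      have h1 := congrArg (cf 3 1) (congrFun (congrFun hT a) b)
      rw [Matrix.mul_apply, cf_sum, Finset.sum_congr rfl fun c _ =>
        cf31 _ _ (e00 a c) (e10 a c) (e01 a c) (e00 c b) (e10 c b) (e01 c b)] at h1
      rw [Matrix.add_apply, Matrix.mul_apply, Matrix.mul_apply, ← Finset.sum_add_distrib]
      refine h1.trans ?_
      rw [Matrix.smul_apply, smul_eq_mul, g4, add_mul, cf_add, cf_px_pow_mul, cf_py_pow_mul]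
      simp
    · ext a b
      have h1 := congrArg (cf 2 2) (congrFun (congrFun hT a) b)
      rw [Matrix.mul_apply, cf_sum, Finset.sum_congr rfl fun c _ =>
        cf22 _ _ (e00 a c) (e10 a c) (e01 a c) (e00 c b) (e10 c b) (e01 c b)] at h1
      rw [Matrix.add_apply, Matrix.add_apply, Matrix.mul_apply, Matrix.mul_apply, Matrix.mul_apply,
        ← Finset.sum_add_distrib, ← Finset.sum_add_distrib]
      refine h1.trans ?_
      rw [Matrix.smul_apply, smul_eq_mul, g4, add_mul, cf_add, cf_px_pow_mul, cf_py_pow_mul]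
      simp
    · ext a b
      have h1 := congrArg (cf 0 4) (congrFun (congrFun hT a) b)
      rw [Matrix.mul_apply, cf_sum, Finset.sum_congr rfl fun c _ =>
        cf04 _ _ (e00 a c) (e01 a c) (e00 c b) (e01 c b)] at h1
      rw [Matrix.mul_apply]
      refine h1.trans ?_
      rw [Matrix.smul_apply, smul_eq_mul, g4, add_mul, cf_add, cf_px_pow_mul, cf_py_pow_mul]
      by_cases hab : a = b
      · subst hab
        simp [Matrix.one_apply_eq, cf]
      · simp [Matrix.one_apply_ne hab, cf]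

end Pool.Agent.H11.HZ.BB
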