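import Pool.Agent.H12.HS.Targets
import Pool.Agent.H12.HS.Basic

namespace Pool.Agent.H11.HZ.CB

open Pool.Agent.H12.HS
open Matrix

universe u

theorem act_conj {P : Type u} [CommRing P] {g : P} {n n' N : Type} [Fintype n] [DecidableEq n]
    [Fintype n'] [DecidableEq n'] [Fintype N] (T : Matrix n n P) (lam : N → n → P)
    (S : Matrix n n' P) (S' : Matrix n' n P) (h : S * S' = 1)
    (r : N → QuadraticAlgebra P g 0) :
    act (S' * T * S) (fun i => lam i ᵥ* S) r = act T lam r ᵥ* S := by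
  simp only [act, Matrix.sum_vecMul]
  refine Finset.sum_congr rfl fun i _ => ?_
  rw [Matrix.add_vecMul, Matrix.smul_vecMul, Matrix.smul_vecMul]
  congr 2
  rw [Matrix.vecMul_vecMul, Matrix.vecMul_vecMul, ← Matrix.mul_assoc, ← Matrix.mul_assoc, h,
    Matrix.one_mul]

theorem cb : T_CB.{u} := by
  intro Ω _ m n n' _ _ _ _ T lam f S S' h1 h2 hP
  have hcard : Fintype.card n' = Fintype.card n := by
    have e : (n → P2 Ω) ≃ₗ[P2 Ω] (n' → P2 Ω) :=
      LinearEquiv.ofLinearMap (Matrix.mulVecLin S') (Matrix.mulVecLin S)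
        (by
          rw [← Matrix.mulVecLin_mul, h2, Matrix.mulVecLin_one])
        (by
          rw [← Matrix.mulVecLin_mul, h1, Matrix.mulVecLin_one])
    have := e.finrank_eq
    rw [Module.finrank_fintype_fun_eq_card, Module.finrank_fintype_fun_eq_card] at this
    exact this.symm
  refine ⟨?_, ?_, ?_, hP.cofI, ?_⟩
  · have : S' * T * S * (S' * T * S) = S' * (T * (S * S') * T) * S := by
      simp only [Matrix.mul_assoc]
    rw [this, h1, Matrix.mul_one, hP.sq, Matrix.mul_smul, Matrix.mul_one, Matrix.smul_mul, h2]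
  · rw [hcard, hP.card]
  · rw [act_conj T lam S S' h1, hP.rel, Matrix.zero_vecMul]
  · obtain ⟨M, hM⟩ := hP.cofM
    refine ⟨M, fun ρ => ?_⟩
    obtain ⟨⟨r, hr⟩, ⟨r', hr'⟩⟩ := hM (ρ ᵥ* S')
    have hρ : (ρ ᵥ* S') ᵥ* S = ρ := by
      rw [Matrix.vecMul_vecMul, h2, Matrix.vecMul_one]
    constructor
    · refine ⟨r, ?_⟩
      rw [act_conj T lam S S' h1, hr, Matrix.smul_vecMul, hρ]
    · refine ⟨r', ?_⟩
      rw [act_conj T lam S S' h1, hr', Matrix.smul_vecMul, hρ]

end Pool.Agent.H11.HZ.CB
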