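import Pool.Agent.H12.HS.Targets
import Pool.Agent.H12.HS.Basic

namespace Pool.Agent.H11.HZ.CONJ

open Pool.Agent.H12.HS
open Matrix

universe u

/-- the conjugated configuration -/
def cj {d : ℕ} {Ω : Type u} [Field Ω] (U V : Matrix (Fin d) (Fin d) Ω) (c : Cfg d Ω) : Cfg d Ω :=
  ⟨fun a => U * c.M a * V, U *ᵥ c.v⟩

/-- generic entries of the conjugated configuration -/
noncomputable def gfn {d : ℕ} {Ω : Type u} [Field Ω] (U V : Matrix (Fin d) (Fin d) Ω) :
    Idx d → MvPolynomial (Idx d) Ω :=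
  Sum.elim (fun q => ∑ j, (∑ i, MvPolynomial.C (U q.2.1 i) *
      MvPolynomial.X (Sum.inl (q.1, i, j))) * MvPolynomial.C (V j q.2.2))
    (fun i => ∑ j, MvPolynomial.C (U i j) * MvPolynomial.X (Sum.inr j))

theorem eval_gfn {d : ℕ} {Ω : Type u} [Field Ω] (U V : Matrix (Fin d) (Fin d) Ω) (c : Cfg d Ω)
    (i : Idx d) : MvPolynomial.eval c.fn (gfn U V i) = (cj U V c).fn i := by
  rcases i with ⟨a, i, j⟩ | i
  · simp only [gfn, Sum.elim_inl, map_sum, map_mul, MvPolynomial.eval_C, MvPolynomial.eval_X, cj,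
      Cfg.fn, Matrix.mul_apply]
  · simp only [gfn, Sum.elim_inr, map_sum, map_mul, MvPolynomial.eval_C, MvPolynomial.eval_X, cj,
      Cfg.fn, Matrix.mulVec, dotProduct]

theorem eval_G {k Ω : Type u} [Field k] [Field Ω] (κ : k →+* Ω) {d : ℕ}
    (U V : Matrix (Fin d) (Fin d) Ω) (F : MvPolynomial (Idx d) k) (c : Cfg d Ω) :
    MvPolynomial.eval c.fn (MvPolynomial.eval₂ (MvPolynomial.C.comp κ) (gfn U V) F) =
      MvPolynomial.eval₂ κ (cj U V c).fn F := by
  rw [MvPolynomial.hom_eval₂]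
  have h1 : (MvPolynomial.eval c.fn).comp (MvPolynomial.C.comp κ) = κ := by
    ext a
    simp
  rw [h1]
  congr 1
  funext i
  exact eval_gfn U V c i

theorem isRed_cj {k Ω : Type u} [Field k] [Field Ω] (κ : k →+* Ω) {d : ℕ}
    (U V : Matrix (Fin d) (Fin d) Ω) (hUV : U * V = 1) (c0 : Cfg d k) (h : IsRed c0) :
    IsRed (cj U V (c0.map κ)) := by
  obtain ⟨p, U0, V0, hinj, hsurf, hU0, hM, hv⟩ := h
  refine ⟨fun i a => κ (p i a), U * U0.map κ, V0.map κ * V, ?_, ?_, ?_, ?_, ?_⟩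
  · intro i j hij
    apply hinj
    funext a
    exact κ.injective (congrFun hij a)
  · intro i
    change κ (p i 2) ^ 2 = κ (p i 0) ^ 4 + κ (p i 1) ^ 4
    rw [← map_pow, ← map_pow, ← map_pow, ← map_add, hsurf]
  · have h1 : U0.map κ * V0.map κ = 1 := by
      rw [← Matrix.map_mul, hU0]
      exact Matrix.map_one κ (map_zero κ) (map_one κ)
    have : U * U0.map κ * (V0.map κ * V) = U * (U0.map κ * V0.map κ) * V := by
      simp only [Matrix.mul_assoc]
    rw [this, h1, Matrix.mul_one, hUV]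
  · intro a
    change U * (c0.M a).map κ * V = _
    rw [hM a, Matrix.map_mul, Matrix.map_mul]
    have h2 : (Matrix.diagonal fun i => p i a).map κ = Matrix.diagonal fun i => κ (p i a) := by
      rw [Matrix.diagonal_map (map_zero κ)]
    rw [h2]
    simp only [Matrix.mul_assoc]
  · change U *ᵥ (κ ∘ c0.v) = _
    rw [hv]
    have h3 : κ ∘ (U0 *ᵥ (1 : Fin d → k)) = (U0.map κ) *ᵥ (1 : Fin d → Ω) := by
      funext i
      simp [Matrix.mulVec, dotProduct, map_sum]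
    rw [h3, Matrix.mulVec_mulVec]

theorem conj (hred : T_RED.{u}) (hext : T_EXT.{u}) : T_CONJ.{u} := by
  intro k Ω _ _ _ κ d c U V hUV hc F hF
  have h := hext k Ω κ (Idx d) {e | ∃ c0 : Cfg d k, IsRed c0 ∧ e = c0.fn} c.fn
    (fun F' hF' => hc F' fun c0 hc0 => hF' _ ⟨c0, hc0, rfl⟩)
    (MvPolynomial.eval₂ (MvPolynomial.C.comp κ) (gfn U V) F)
    (by
      rintro e ⟨c0, hc0, rfl⟩
      rw [← Cfg.map_fn, eval_G]
      exact hred k Ω κ d _ (isRed_cj κ U V hUV c0 hc0) F hF)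
  rw [eval_G] at h
  exact h

end Pool.Agent.H11.HZ.CONJ
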