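import Pool.Agent.H12.HS.Targets
import Pool.Agent.H12.HS.Basic

namespace Pool.Agent.H11.HZ.HB

open Pool.Agent.H12.HS

universe u

theorem unit_entry {Ω Ω' : Type u} [Field Ω] [Field Ω'] (ι : PowerSeries Ω →+* Ω')
    (hι : Function.Injective ι) (a : AA Ω) :
    IsUnit (mapA (ι.comp PowerSeries.C) a + algebraMap Ω' (AA Ω') (ι PowerSeries.X)) := by
  rw [isUnit_AA, algebraMap_AA, QuadraticAlgebra.re_add, mapA_re, map_add, ev0_mapP, ev0_cst]
  intro h
  have h1 : ι (PowerSeries.C (ev0 a.re) + PowerSeries.X) = 0 := by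
    rw [map_add]
    exact h
  rw [map_eq_zero_iff ι hι] at h1
  have h2 := congrArg (PowerSeries.coeff 1) h1
  simp at h2

theorem hb (hfam : T_HBFAM.{u}) (hred : T_HBRED.{u}) : T_HB.{u} := by
  intro k Ω hk hΩ hkc hΩc hk0 κ m
  revert Ω
  induction m with
  | zero =>
    intro Ω hΩ hΩc κ M _
    have h0 : Ideal.span (Set.range (dl M)) = ⊤ := by
      rw [Ideal.eq_top_iff_one]
      apply Ideal.subset_span
      refine ⟨0, ?_⟩
      rw [dl, Matrix.det_fin_one]
      simp [bord]
    have : Subsingleton (AA Ω ⧸ Ideal.span (Set.range (dl M))) := by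
      rw [h0]
      exact Ideal.Quotient.subsingleton_iff.2 rfl
    exact SmAt.of_subsingleton κ _ _
  | succ m ih =>
    intro Ω hΩ hΩc κ M hC
    let Ω' : Type u := AlgebraicClosure (FractionRing (PowerSeries Ω))
    let ι : PowerSeries Ω →+* Ω' :=
      (algebraMap (FractionRing (PowerSeries Ω)) Ω').comp
        (algebraMap (PowerSeries Ω) (FractionRing (PowerSeries Ω)))
    have hι : Function.Injective ι :=
      (algebraMap (FractionRing (PowerSeries Ω)) Ω').injective.comp
        (IsFractionRing.injective (PowerSeries Ω) (FractionRing (PowerSeries Ω)))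
    obtain ⟨hC', h⟩ := hfam k Ω Ω' κ ι hι m M hC
    apply h
    have hu : IsUnit ((M.map (mapA (ι.comp PowerSeries.C)) +
        Matrix.single 0 0 (algebraMap Ω' (AA Ω') (ι PowerSeries.X)) :
          Matrix (Fin (m + 2)) (Fin (m + 1)) (AA Ω')) 0 0) := by
      rw [Matrix.add_apply, Matrix.map_apply, Matrix.single_apply_same]
      exact unit_entry ι hι (M 0 0)
    obtain ⟨M', hM'⟩ := hred (AA Ω') m _ hu
    rw [← hM'] at hC' ⊢
    exact ih Ω' _ M' hC'

end Pool.Agent.H11.HZ.HB
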