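import Pool.Agent.H12.HS.Targets
import Pool.Agent.H12.HS.Basic

namespace Pool.Agent.H11.HZ.HBFAM

open Pool.Agent.H12.HS
open Matrix

universe u v

section
variable {A : Type u} [CommRing A] {m : ℕ}

omit [CommRing A] in
theorem bord_zero (M : Matrix (Fin (m + 1)) (Fin m) A) (c : Fin (m + 1) → A) (i : Fin (m + 1)) :
    bord M c i 0 = c i := rfl

omit [CommRing A] in
theorem bord_succ (M : Matrix (Fin (m + 1)) (Fin m) A) (c : Fin (m + 1) → A) (i : Fin (m + 1))
    (j : Fin m) : bord M c i j.succ = M i j := rfl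

theorem det_bord (M : Matrix (Fin (m + 1)) (Fin m) A) (c : Fin (m + 1) → A) :
    (bord M c).det = ∑ i : Fin (m + 1), (-1) ^ (i : ℕ) * c i *
      (M.submatrix i.succAbove id).det := by
  rw [Matrix.det_succ_column_zero]
  rfl

theorem dl_eq (M : Matrix (Fin (m + 1)) (Fin m) A) (i : Fin (m + 1)) :
    dl M i = (-1) ^ (i : ℕ) * (M.submatrix i.succAbove id).det := by
  rw [dl, det_bord, Finset.sum_eq_single i]
  · rw [Pi.single_eq_same, mul_one]
  · intro j _ hj
    rw [Pi.single_eq_of_ne hj]
    ring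
  · intro h
    exact absurd (Finset.mem_univ i) h

theorem sum_dl (M : Matrix (Fin (m + 1)) (Fin m) A) (v : Fin (m + 1) → A) :
    ∑ i, v i * dl M i = (bord M v).det := by
  rw [det_bord]
  refine Finset.sum_congr rfl fun i _ => ?_
  rw [dl_eq]
  ring

theorem sum_col_dl (M : Matrix (Fin (m + 1)) (Fin m) A) (j : Fin m) :
    ∑ i, M i j * dl M i = 0 := by
  rw [sum_dl M (fun i => M i j)]
  exact Matrix.det_zero_of_column_eq (i := 0) (j := j.succ) (Fin.succ_ne_zero j).symm fun i => rfl

theorem sum_mulVec_dl (M : Matrix (Fin (m + 1)) (Fin m) A) (c : Fin m → A) :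
    ∑ i, (M *ᵥ c) i * dl M i = 0 := by
  simp only [Matrix.mulVec, dotProduct, Finset.sum_mul]
  rw [Finset.sum_comm]
  refine Finset.sum_eq_zero fun j _ => ?_
  have : ∀ i, M i j * c j * dl M i = c j * (M i j * dl M i) := fun i => by ring
  rw [Finset.sum_congr rfl fun i _ => this i, ← Finset.mul_sum, sum_col_dl, mul_zero]

/-- the coefficient of `t` -/
noncomputable def dl' (M : Matrix (Fin (m + 2)) (Fin (m + 1)) A) (i : Fin (m + 2)) : A :=
  ((bord M (Pi.single i 1)).updateCol 1 (Pi.single 0 1)).det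

theorem bord_add (M : Matrix (Fin (m + 2)) (Fin (m + 1)) A) (t : A) (c : Fin (m + 2) → A) :
    bord (M + Matrix.single 0 0 t) c =
      (bord M c).updateCol 1 ((fun i => bord M c i 1) + t • (Pi.single 0 1 : Fin (m + 2) → A)) := by
  ext i j
  refine Fin.cases ?_ (fun j => ?_) j
  · rw [Matrix.updateCol_ne (by
      intro h
      exact absurd h (Fin.succ_ne_zero (0 : Fin (m + 1))).symm)]
    rfl
  · refine Fin.cases ?_ (fun j => ?_) j
    · change _ = (updateCol (bord M c) 1 _) i 1
      rw [Matrix.updateCol_self, bord_succ, Pi.add_apply, Pi.smul_apply, Matrix.add_apply]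
      change M i 0 + _ = M i 0 + _
      congr 1
      by_cases hi : i = 0
      · subst hi
        rw [Pi.single_eq_same, Matrix.single_apply_same, smul_eq_mul, mul_one]
      · rw [Pi.single_eq_of_ne hi, smul_zero, Matrix.single_apply_of_ne]
        rintro ⟨h, -⟩
        exact hi h.symm
    · rw [Matrix.updateCol_ne (by
        intro h
        have h2 : j.succ.succ = (0 : Fin (m + 1)).succ := h
        exact absurd (Fin.succ_injective _ h2) (Fin.succ_ne_zero j)), bord_succ, bord_succ, Matrix.add_apply,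
        Matrix.single_apply_of_ne, add_zero]
      rintro ⟨-, h⟩
      exact absurd h (Fin.succ_ne_zero j).symm

theorem dl_add (M : Matrix (Fin (m + 2)) (Fin (m + 1)) A) (t : A) (i : Fin (m + 2)) :
    dl (M + Matrix.single 0 0 t) i = dl M i + t * dl' M i := by
  rw [dl, bord_add, Matrix.det_updateCol_add, Matrix.det_updateCol_smul,
    Matrix.updateCol_eq_self]
  rfl

theorem bord_map {B : Type v} [CommRing B] (φ : A →+* B) (M : Matrix (Fin (m + 1)) (Fin m) A)
    (i : Fin (m + 1)) :
    bord (M.map φ) (Pi.single i 1) = (bord M (Pi.single i 1)).map φ := by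
  ext a b
  refine Fin.cases ?_ (fun b => ?_) b
  · rw [Matrix.map_apply, bord_zero, bord_zero]
    by_cases h : a = i
    · subst h
      rw [Pi.single_eq_same, Pi.single_eq_same, map_one]
    · rw [Pi.single_eq_of_ne h, Pi.single_eq_of_ne h, map_zero]
  · rfl

theorem dl_map {B : Type v} [CommRing B] (φ : A →+* B) (M : Matrix (Fin (m + 1)) (Fin m) A)
    (i : Fin (m + 1)) : dl (M.map φ) i = φ (dl M i) := by
  rw [dl, dl, bord_map, RingHom.map_det]
  rfl

theorem dl'_map {B : Type v} [CommRing B] (φ : A →+* B) (M : Matrix (Fin (m + 2)) (Fin (m + 1)) A)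
    (i : Fin (m + 2)) : dl' (M.map φ) i = φ (dl' M i) := by
  rw [dl', dl', bord_map, RingHom.map_det, RingHom.mapMatrix_apply, Matrix.map_updateCol]
  congr 2
  funext a
  by_cases h : a = 0
  · subst h
    rw [Function.comp_apply, Pi.single_eq_same, Pi.single_eq_same, map_one]
  · rw [Function.comp_apply, Pi.single_eq_of_ne h, Pi.single_eq_of_ne h, map_zero]

end

theorem hbfam (hsyz : T_HBSYZ.{u}) (hfam : T_FAM.{u}) : T_HBFAM.{u} := by
  intro k Ω Ω' _ _ _ _ _ _ _ κ ι hι m M hC
  have : CharZero Ω := charZero_of_hom κ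
  have key := hfam k Ω Ω' κ ι hι (Fin (m + 2)) (dl M) (dl' M) hC (by
    intro g hg
    obtain ⟨c, hc⟩ := hsyz Ω (m + 1) M hC g hg
    refine ⟨(M.map (PowerSeries.C (R := AA Ω)) + Matrix.single 0 0 PowerSeries.X) *ᵥ
      (PowerSeries.C ∘ c), ?_, ?_⟩
    · intro i
      rw [hc]
      simp only [Matrix.mulVec, dotProduct, map_sum, map_mul, Matrix.add_apply, Matrix.map_apply,
        map_add, Function.comp_apply, PowerSeries.constantCoeff_C]
      refine Finset.sum_congr rfl fun j _ => ?_
      have : PowerSeries.constantCoeff ((Matrix.single 0 0 (PowerSeries.X : PowerSeries (AA Ω)) :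
          Matrix (Fin (m + 2)) (Fin (m + 1)) (PowerSeries (AA Ω))) i j) = 0 := by
        rw [Matrix.single_apply]
        split_ifs
        · exact PowerSeries.constantCoeff_X
        · exact map_zero _
      rw [this, add_zero]
    · rw [← sum_mulVec_dl (M.map (PowerSeries.C (R := AA Ω)) +
        Matrix.single 0 0 PowerSeries.X) (PowerSeries.C ∘ c)]
      refine Finset.sum_congr rfl fun i _ => ?_
      congr 1
      rw [dl_add, dl_map, dl'_map])
  have hfun : (fun i => mapA (ι.comp PowerSeries.C) (dl M i) +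
      algebraMap Ω' (AA Ω') (ι PowerSeries.X) * mapA (ι.comp PowerSeries.C) (dl' M i)) =
      dl (M.map (mapA (ι.comp PowerSeries.C)) +
        Matrix.single 0 0 (algebraMap Ω' (AA Ω') (ι PowerSeries.X))) := by
    funext i
    rw [dl_add, dl_map, dl'_map]
  rw [hfun] at key
  exact key

end Pool.Agent.H11.HZ.HBFAM
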