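import Pool.Agent.H11.HZ.Split

namespace Pool.Agent.H11.HZ.IDEM

open Pool.Agent.H12.HS Pool.Agent.H11.HZ.Split

universe u

theorem idem : T_IDEM.{u} := by
  intro Ω W _ _ _ _ p
  obtain ⟨n, e, he', hspan, heJ⟩ := exists_idem (Ω := Ω) (Ideal.span (Set.range p))
  refine ⟨W ⧸ Ideal.span {e}, W ⧸ Ideal.span {1 - e}, inferInstance, inferInstance, inferInstance,
    inferInstance, AlgEquiv.ofBijective (spl e) (spl_bij e he'), ?_, ?_⟩
  · intro i
    refine ⟨n, ?_⟩
    change (Ideal.Quotient.mk (Ideal.span {e}) (p i)) ^ n = 0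
    rw [← map_pow, Ideal.Quotient.eq_zero_iff_mem]
    have hpi : p i ∈ Ideal.span (Set.range p) := Ideal.subset_span (Set.mem_range_self i)
    have : p i ^ n ∈ Ideal.span (Set.range p) ^ n := Ideal.pow_mem_pow hpi n
    rw [hspan] at this
    exact this
  · have h1 : (Set.range fun i => (AlgEquiv.ofBijective (spl (Ω := Ω) e) (spl_bij e he') (p i)).2) =
        (Ideal.Quotient.mk (Ideal.span {1 - e})) '' (Set.range p) := by
      rw [← Set.range_comp]
      rfl
    rw [h1, ← Ideal.map_span, Ideal.eq_top_iff_one]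
    have h3 : (Ideal.Quotient.mk (Ideal.span {1 - e})) e = 1 := by
      rw [← map_one (Ideal.Quotient.mk (Ideal.span {1 - e})), Ideal.Quotient.mk_eq_mk_iff_sub_mem,
        Ideal.mem_span_singleton']
      exact ⟨-1, by ring⟩
    rw [← h3]
    exact Ideal.mem_map_of_mem _ heJ

end Pool.Agent.H11.HZ.IDEM
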