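import Pool.Agent.H12.HS.Targets
import Pool.Agent.H12.HS.Basic

namespace Pool.Agent.H11.HZ.Split

open Pool.Agent.H12.HS

universe u

section
variable {Ω W : Type u} [Field Ω] [CommRing W] [Algebra Ω W]

/-- the projection to the two factors -/
noncomputable def spl (e : W) : W →ₐ[Ω] (W ⧸ Ideal.span {e}) × (W ⧸ Ideal.span {1 - e}) :=
    (Ideal.Quotient.mkₐ Ω (Ideal.span {e})).prod (Ideal.Quotient.mkₐ Ω (Ideal.span {1 - e}))

theorem spl_apply (e w : W) : spl (Ω := Ω) e w = (Ideal.Quotient.mk (Ideal.span {e}) w,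
      Ideal.Quotient.mk (Ideal.span {1 - e}) w) := rfl

theorem spl_bij (e : W) (he' : e * e = e) : Function.Bijective (spl (Ω := Ω) e) := by
  constructor
  · rw [injective_iff_map_eq_zero]
    intro w hw
    rw [spl_apply, Prod.mk_eq_zero, Ideal.Quotient.eq_zero_iff_mem, Ideal.Quotient.eq_zero_iff_mem,
      Ideal.mem_span_singleton', Ideal.mem_span_singleton'] at hw
    obtain ⟨⟨a, ha⟩, ⟨b, hb⟩⟩ := hw
    have h1 : w * e = w := by rw [← ha, mul_assoc, he']
    have h2 : w * e = 0 := by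
      rw [← hb, mul_assoc, sub_mul, one_mul, he', sub_self, mul_zero]
    rw [← h1, h2]
  · rintro ⟨a, b⟩
    obtain ⟨a, rfl⟩ := Ideal.Quotient.mk_surjective a
    obtain ⟨b, rfl⟩ := Ideal.Quotient.mk_surjective b
    refine ⟨a * (1 - e) + b * e, ?_⟩
    rw [spl_apply, Prod.mk.injEq]
    constructor
    · rw [Ideal.Quotient.mk_eq_mk_iff_sub_mem, Ideal.mem_span_singleton']
      exact ⟨b - a, by ring⟩
    · rw [Ideal.Quotient.mk_eq_mk_iff_sub_mem, Ideal.mem_span_singleton']
      exact ⟨a - b, by ring⟩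

/-- stabilisation of powers: some power of an ideal is generated by an idempotent -/
theorem exists_idem [Module.Finite Ω W] (J : Ideal W) : ∃ (n : ℕ) (e : W), e * e = e ∧
    J ^ n = Ideal.span {e} ∧ e ∈ J := by
  have hart : IsArtinianRing W := isArtinian_of_tower Ω (inferInstance : IsArtinian Ω W)
  have hnoe : IsNoetherianRing W := isNoetherian_of_tower Ω (inferInstance : IsNoetherian Ω W)
  obtain ⟨n, hn⟩ := IsArtinian.monotone_stabilizes (R := W) (M := W)
    ⟨fun n => OrderDual.toDual (J ^ n), fun a b hab => by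
      exact Ideal.pow_le_pow_right hab⟩
  have hn' : ∀ m, n ≤ m → J ^ n = J ^ m := fun m hm => hn m hm
  have hidem : IsIdempotentElem (J ^ n) := by
    change J ^ n * J ^ n = J ^ n
    rw [← pow_add]
    exact (hn' (n + n) (by omega)).symm
  obtain ⟨e, he, hspan⟩ := (Ideal.isIdempotentElem_iff_of_fg (J ^ n)
    ((isNoetherianRing_iff_ideal_fg W).1 hnoe _)).1 hidem
  refine ⟨n, e, he, hspan, ?_⟩
  have h1 : e ∈ J ^ n := by rw [hspan]; exact Ideal.mem_span_singleton_self e
  rw [hn' (n + 1) (by omega)] at h1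
  exact Ideal.pow_le_self (by omega) h1

end

end Pool.Agent.H11.HZ.Split
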